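import Pool.Agent.R220.MinMetricA

set_option autoImplicit false

/-!
# MP_29b22c_an, Q1: a domain whose minimal pseudometric is not continuous

For every `n ≥ 3` there is a bounded domain in `ℝⁿ` whose minimal pseudometric is not continuous.
The domain is the unit ball together with a sequence of thin plates
`{|x₂ - y_j| < ε_j}` of radius `100`, `y_j → 0`.
-/

open Complex Metric Set Filter Topology InnerProductSpace

namespace Pool.Agent.Results.MP_29b22c_an.DiscontinuousMinimalMetric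

open Pool.Agent.R220.MinMetric

variable {n : ℕ}

/-- conformal harmonic maps from the unit disc into `Ω` -/
structure IsCH (Ω : Set (EuclideanSpace ℝ (Fin n))) (f : ℂ → EuclideanSpace ℝ (Fin n)) : Prop where
  harmonic : HarmonicOnNhd f (ball (0 : ℂ) 1)
  conformal : ∀ z ∈ ball (0 : ℂ) 1, ‖fderiv ℝ f z 1‖ = ‖fderiv ℝ f z Complex.I‖ ∧
    inner ℝ (fderiv ℝ f z 1) (fderiv ℝ f z Complex.I) = 0
  maps : MapsTo f (ball (0 : ℂ) 1) Ω

/-- the minimal pseudometric of `Ω` -/
noncomputable def minMetric (Ω : Set (EuclideanSpace ℝ (Fin n)))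
    (x u : EuclideanSpace ℝ (Fin n)) : ℝ :=
  open Classical in
  if u = 0 then 0 else sInf {s : ℝ | ∃ r : ℝ, 0 < r ∧ s = 1 / r ∧
    ∃ f : ℂ → EuclideanSpace ℝ (Fin n), IsCH Ω f ∧ f 0 = x ∧ fderiv ℝ f 0 1 = r • u}

/-- heights of the plates -/
noncomputable def yy (j : ℕ) : ℝ := (1 / 2) ^ (j + 1)

lemma yy_pos (j : ℕ) : 0 < yy j := by unfold yy; positivity

lemma yy_le (j : ℕ) : yy j ≤ 1 / 2 := by
  unfold yy
  rw [pow_succ]
  have : (1 / 2 : ℝ) ^ j ≤ 1 := pow_le_one₀ (by norm_num) (by norm_num)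
  linarith

lemma yy_half {j k : ℕ} (h : j < k) : yy k ≤ yy j / 2 := by
  have h1 : yy k ≤ yy (j + 1) := by
    unfold yy
    exact pow_le_pow_of_le_one (by norm_num) (by norm_num) (by omega)
  have h2 : yy (j + 1) = yy j / 2 := by
    unfold yy; rw [pow_succ _ (j + 1)]; ring
  linarith

lemma yy_tendsto : Tendsto yy atTop (𝓝 0) := by
  unfold yy
  exact (tendsto_pow_atTop_nhds_zero_of_lt_one (by norm_num) (by norm_num)).comp
    (tendsto_add_atTop_nat 1)

/-- the plates -/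
def plate (i2 : Fin n) (ε : ℕ → ℝ) (j : ℕ) : Set (EuclideanSpace ℝ (Fin n)) :=
  ball (0 : EuclideanSpace ℝ (Fin n)) 100 ∩ {x | |x i2 - yy j| < ε j}

/-- the domain -/
def Dom (i2 : Fin n) (ε : ℕ → ℝ) : Set (EuclideanSpace ℝ (Fin n)) :=
  ball 0 1 ∪ ⋃ j, plate i2 ε j

lemma abs_coord_le (x : EuclideanSpace ℝ (Fin n)) (i : Fin n) : |x i| ≤ ‖x‖ := by
  have := PiLp.norm_apply_le x i
  simpa using this

lemma norm_le_sum (x : EuclideanSpace ℝ (Fin n)) : ‖x‖ ≤ ∑ i, |x i| := by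
  have h0 : 0 ≤ ∑ i, |x i| := Finset.sum_nonneg fun i _ => abs_nonneg _
  rw [EuclideanSpace.norm_eq]
  rw [Real.sqrt_le_left h0]
  have := Finset.sum_sq_le_sq_sum_of_nonneg (s := Finset.univ) (f := fun i => |x i|)
    (fun i _ => abs_nonneg _)
  simpa using this

lemma isOpen_plate (i2 : Fin n) (ε : ℕ → ℝ) (j : ℕ) : IsOpen (plate i2 ε j) := by
  apply IsOpen.inter isOpen_ball
  apply isOpen_lt _ continuous_const
  fun_prop

lemma isOpen_Dom (i2 : Fin n) (ε : ℕ → ℝ) : IsOpen (Dom i2 ε) :=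
  isOpen_ball.union (isOpen_iUnion fun j => isOpen_plate i2 ε j)

lemma pj_mem (i2 : Fin n) (ε : ℕ → ℝ) (hε : ∀ j, 0 < ε j) (j : ℕ) :
    (EuclideanSpace.single i2 (yy j) : EuclideanSpace ℝ (Fin n)) ∈ plate i2 ε j := by
  have h1 := yy_le j
  have h2 := yy_pos j
  refine ⟨?_, ?_⟩
  · rw [mem_ball_zero_iff, PiLp.norm_single, Real.norm_eq_abs, abs_of_pos h2]
    linarith
  · simpa using hε j

lemma convex_plate (i2 : Fin n) (ε : ℕ → ℝ) (j : ℕ) : Convex ℝ (plate i2 ε j) := by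
  apply Convex.inter (convex_ball _ _)
  intro x hx y hy a b ha hb hab
  simp only [mem_ofPred_eq, abs_lt] at hx hy ⊢
  simp only [PiLp.add_apply, PiLp.smul_apply, smul_eq_mul]
  have hb' : b = 1 - a := by linarith
  subst hb'
  rcases hb.eq_or_lt with h | h
  · have : a = 1 := by linarith
    subst this
    constructor <;> linarith [hx.1, hx.2]
  · constructor <;> nlinarith [hx.1, hx.2, hy.1, hy.2, mul_nonneg ha (sub_nonneg.2 hx.1.le),
      mul_nonneg ha (sub_nonneg.2 hx.2.le), mul_pos h (sub_pos.2 hy.1), mul_pos h (sub_pos.2 hy.2)]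

lemma isConnected_Dom (i2 : Fin n) (ε : ℕ → ℝ) (hε : ∀ j, 0 < ε j) : IsConnected (Dom i2 ε) := by
  have h0 : (0 : EuclideanSpace ℝ (Fin n)) ∈ ball (0 : EuclideanSpace ℝ (Fin n)) 1 :=
    mem_ball_self one_pos
  refine ⟨⟨0, Or.inl h0⟩, ?_⟩
  have hD : Dom i2 ε = ⋃ j, (ball (0 : EuclideanSpace ℝ (Fin n)) 1 ∪ plate i2 ε j) := by
    unfold Dom
    rw [← union_iUnion]
  rw [hD]
  apply isPreconnected_iUnion
  · exact ⟨0, by simp⟩
  · intro j
    apply IsPreconnected.union' _ (convex_ball _ _).isPreconnected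
      (convex_plate i2 ε j).isPreconnected
    refine ⟨EuclideanSpace.single i2 (yy j), ?_, pj_mem i2 ε hε j⟩
    have h1 := yy_le j
    have h2 := yy_pos j
    rw [mem_ball_zero_iff, PiLp.norm_single, Real.norm_eq_abs, abs_of_pos h2]
    linarith

lemma Dom_subset (i2 : Fin n) (ε : ℕ → ℝ) : Dom i2 ε ⊆ ball 0 100 := by
  rintro x (hx | hx)
  · exact ball_subset_ball (by norm_num) hx
  · obtain ⟨j, hj⟩ := mem_iUnion.1 hx
    exact hj.1

/-- the flat discs in the plates -/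
lemma upper (h3 : 3 ≤ n) (ε : ℕ → ℝ) (hε : ∀ j, 0 < ε j) (j : ℕ) :
    minMetric (Dom (⟨2, by omega⟩ : Fin n) ε) (EuclideanSpace.single ⟨2, by omega⟩ (yy j))
      (EuclideanSpace.single ⟨0, by omega⟩ 1) ≤ 1 / 99 := by
  set i0 : Fin n := ⟨0, by omega⟩ with hi0
  set i1 : Fin n := ⟨1, by omega⟩ with hi1
  set i2 : Fin n := ⟨2, by omega⟩ with hi2
  have h01 : i0 ≠ i1 := by simp [hi0, hi1]
  have h02 : i0 ≠ i2 := by simp [hi0, hi2]
  have h12 : i1 ≠ i2 := by simp [hi1, hi2]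
  unfold minMetric
  have hne : (EuclideanSpace.single i0 1 : EuclideanSpace ℝ (Fin n)) ≠ 0 := by
    intro h
    have := congrArg norm h
    simp at this
  rw [if_neg hne]
  apply csInf_le
  · refine ⟨0, ?_⟩
    rintro s ⟨r, hr, rfl, _⟩
    positivity
  refine ⟨99, by norm_num, rfl, ?_⟩
  set e0 : EuclideanSpace ℝ (Fin n) := EuclideanSpace.single i0 1 with he0
  set e1 : EuclideanSpace ℝ (Fin n) := EuclideanSpace.single i1 1 with he1
  set p : EuclideanSpace ℝ (Fin n) := EuclideanSpace.single i2 (yy j) with hp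
  set L : ℂ →L[ℝ] EuclideanSpace ℝ (Fin n) :=
    (99 : ℝ) • (Complex.reCLM.smulRight e0 + Complex.imCLM.smulRight e1) with hL
  have hLv : ∀ z : ℂ, L z = (99 : ℝ) • (z.re • e0 + z.im • e1) := fun z => rfl
  have hfd : ∀ z, HasFDerivAt (fun z => p + L z) L z := fun z => L.hasFDerivAt.const_add p
  have ne0 : ‖e0‖ = 1 := by simp [he0]
  have ne1 : ‖e1‖ = 1 := by simp [he1]
  have in01 : inner ℝ e0 e1 = 0 := by
    rw [he0, he1, EuclideanSpace.inner_single_left]
    simp [h01]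
  have hLn : ∀ z, ‖L z‖ = 99 * ‖z‖ := by
    intro z
    rw [hLv, norm_smul]
    have h4 : ‖z.re • e0 + z.im • e1‖ = ‖z‖ := by
      have h5 : ‖z.re • e0 + z.im • e1‖ ^ 2 = ‖z‖ ^ 2 := by
        rw [norm_add_sq_real, norm_smul, norm_smul, ne0, ne1, inner_smul_left, inner_smul_right,
          in01, Complex.sq_norm, Complex.normSq_apply]
        simp
        ring
      exact (pow_left_inj₀ (norm_nonneg _) (norm_nonneg _) two_ne_zero).1 h5
    rw [h4]
    norm_num
  refine ⟨fun z => p + L z, ⟨?_, ?_, ?_⟩, ?_, ?_⟩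
  · -- harmonic
    intro z _
    have h4 : HarmonicAt (fun z : ℂ => z) z := (analyticAt_id (𝕜 := ℂ)).harmonicAt
    have h5 : HarmonicAt (L ∘ fun z : ℂ => z) z := h4.comp_CLM L
    have h6 : HarmonicAt (fun _ : ℂ => p) z := by
      refine ⟨contDiffAt_const, ?_⟩
      filter_upwards with w
      simp
    exact h6.add h5
  · intro z _
    rw [(hfd z).fderiv]
    refine ⟨?_, ?_⟩
    · rw [hLn, hLn]; simp
    · rw [hLv, hLv]
      simp [inner_smul_left, inner_smul_right, in01]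
  · intro z hz
    rw [mem_ball_zero_iff] at hz
    right
    apply mem_iUnion.2
    refine ⟨j, ?_, ?_⟩
    · rw [mem_ball_zero_iff]
      have h4 := norm_add_le p (L z)
      rw [hLn] at h4
      have h5 : ‖p‖ ≤ 1 / 2 := by
        rw [hp, PiLp.norm_single, Real.norm_eq_abs, abs_of_pos (yy_pos j)]
        exact yy_le j
      show ‖p + L z‖ < 100
      linarith
    · have h4 : (p + L z) i2 = yy j := by
        rw [PiLp.add_apply, hLv]
        simp [hp, he0, he1, h02.symm, h12.symm]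
      show |(p + L z) i2 - yy j| < ε j
      rw [h4]
      simpa using hε j
  · show p + L 0 = p
    simp
  · rw [(hfd 0).fderiv, hLv]
    simp

/-- the key estimate at the centre -/
lemma lower (h3 : 3 ≤ n) (ε : ℕ → ℝ) (hε8 : ∀ j, ε j ≤ yy j / 8)
    (hprop : ∀ j, ∀ F : ℂ → ℂ, DifferentiableOn ℂ F (ball 0 1) →
      (∀ z ∈ ball (0 : ℂ) 1, |(F z).re| ≤ 1) → ∀ z0 : ℂ, ‖z0‖ ≤ 1 / 3 →
      (∀ z ∈ ball z0 (1 / (10000 * n)), |(F z).re - yy j| ≤ ε j) → (F 0).re ≠ 0)
    {r : ℝ} (hr : 0 < r) {f : ℂ → EuclideanSpace ℝ (Fin n)}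
    (hf : IsCH (Dom (⟨2, by omega⟩ : Fin n) ε) f) (hf0 : f 0 = 0)
    (hfx : fderiv ℝ f 0 1 = r • (EuclideanSpace.single ⟨0, by omega⟩ 1)) : r ≤ 66 := by
  set i0 : Fin n := ⟨0, by omega⟩ with hi0
  set i2 : Fin n := ⟨2, by omega⟩ with hi2
  have m0 : (0 : ℂ) ∈ ball (0 : ℂ) 1 := mem_ball_self one_pos
  have hn : (3 : ℝ) ≤ n := by exact_mod_cast h3
  -- coordinates
  have hcoord : ∀ i : Fin n, ∃ F : ℂ → ℂ, DifferentiableOn ℂ F (ball (0 : ℂ) 1) ∧
      ∀ z ∈ ball (0 : ℂ) 1, (F z).re = f z i := by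
    intro i
    have h4 : HarmonicOnNhd ((EuclideanSpace.proj i : EuclideanSpace ℝ (Fin n) →L[ℝ] ℝ) ∘ f)
        (ball (0 : ℂ) 1) := hf.harmonic.comp_CLM _
    obtain ⟨F, hF1, hF2⟩ := HarmonicOnNhd.exists_analyticOnNhd_ball_re_eq h4
    exact ⟨F, hF1.differentiableOn, fun z hz => hF2 hz⟩
  choose F hFd hFr using hcoord
  have hb : ∀ z ∈ ball (0 : ℂ) 1, ∀ i, |f z i| ≤ 100 := by
    intro z hz i
    have h4 := Dom_subset i2 ε (hf.maps hz)
    rw [mem_ball_zero_iff] at h4
    exact (abs_coord_le _ _).trans h4.le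
  have hb1 : ∀ z ∈ ball (0 : ℂ) 1, |f z i2| ≤ 1 := by
    intro z hz
    rcases hf.maps hz with h4 | h4
    · rw [mem_ball_zero_iff] at h4
      exact (abs_coord_le _ _).trans h4.le
    · obtain ⟨j, hj⟩ := mem_iUnion.1 h4
      have h5 := abs_lt.1 (show |f z i2 - yy j| < ε j from hj.2)
      have h6 := yy_le j
      have h7 := yy_pos j
      have h8 := hε8 j
      rw [abs_le]
      constructor <;> linarith [h5.1, h5.2]
  -- gradient bound on the half disc
  have hgrad : ∀ i, ∀ z ∈ ball (0 : ℂ) (1 / 2), ‖deriv (F i) z‖ ≤ 2200 := by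
    intro i z hz
    rw [mem_ball_zero_iff] at hz
    have hsub : ball z (1 / 2) ⊆ ball 0 1 := by
      apply ball_subset_ball'
      rw [dist_zero_right]; linarith
    have h4 := grad_bound (M := 100) (by norm_num : (0 : ℝ) < 1 / 2) (by norm_num)
      ((hFd i).mono hsub) (fun w hw => by rw [hFr i w (hsub hw)]; exact hb w (hsub hw) i)
    refine h4.trans_eq ?_
    norm_num
  have hlip : ∀ i, ∀ z ∈ ball (0 : ℂ) (1 / 2), ∀ w ∈ ball (0 : ℂ) (1 / 2),
      |f z i - f w i| ≤ 2200 * ‖z - w‖ := by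
    intro i z hz w hw
    have hs : ball (0 : ℂ) (1 / 2) ⊆ ball 0 1 := ball_subset_ball (by norm_num)
    have h4 := Convex.norm_image_sub_le_of_norm_deriv_le (𝕜 := ℂ) (f := F i)
      (s := ball (0 : ℂ) (1 / 2)) (C := 2200)
      (fun z hz => (hFd i).differentiableAt (isOpen_ball.mem_nhds (hs hz)))
      (fun z hz => hgrad i z hz) (convex_ball _ _) hw hz
    have h5 := Complex.abs_re_le_norm (F i z - F i w)
    rw [Complex.sub_re, hFr i z (hs hz), hFr i w (hs hw)] at h5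
    exact h5.trans h4
  -- the disc stays in the ball of radius 2 on the disc of radius 1/3
  have hclaim : ∀ z : ℂ, ‖z‖ ≤ 1 / 3 → ‖f z‖ < 2 := by
    intro z0 hz0
    by_contra hcon
    rw [not_lt] at hcon
    set ρ0 : ℝ := 1 / (10000 * n) with hρ0
    have hρpos : 0 < ρ0 := by positivity
    have hρs : ρ0 ≤ 1 / 10000 := by
      rw [hρ0]
      apply one_div_le_one_div_of_le (by norm_num)
      linarith
    have hsub : ball z0 ρ0 ⊆ ball 0 (1 / 2) := by
      apply ball_subset_ball'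
      rw [dist_zero_right]; linarith
    have hsub1 : ball z0 ρ0 ⊆ ball 0 1 := hsub.trans (ball_subset_ball (by norm_num))
    have hz0m : z0 ∈ ball z0 ρ0 := mem_ball_self hρpos
    have hbig : ∀ z ∈ ball z0 ρ0, 1 < ‖f z‖ := by
      intro z hz
      have h4 : ‖f z - f z0‖ ≤ 1 / 2 := by
        refine (norm_le_sum _).trans ?_
        have h5 : ∀ i ∈ (Finset.univ : Finset (Fin n)), |(f z - f z0) i| ≤ 2200 * ρ0 := by
          intro i _
          rw [PiLp.sub_apply]
          refine (hlip i z (hsub hz) z0 (hsub hz0m)).trans ?_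
          rw [mem_ball, dist_eq_norm] at hz
          linarith
        refine (Finset.sum_le_card_nsmul _ _ _ h5).trans ?_
        rw [Finset.card_univ, Fintype.card_fin, nsmul_eq_mul, hρ0]
        have : (n : ℝ) * (2200 * (1 / (10000 * n))) = 2200 / 10000 := by
          field_simp
        rw [this]
        norm_num
      have h5 := norm_sub_norm_le (f z0) (f z)
      rw [norm_sub_rev] at h5
      linarith
    have hplate : ∀ z ∈ ball z0 ρ0, ∃ j, |f z i2 - yy j| < ε j := by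
      intro z hz
      rcases hf.maps (hsub1 hz) with h4 | h4
      · rw [mem_ball_zero_iff] at h4
        exact absurd h4 (not_lt.2 (hbig z hz).le)
      · obtain ⟨j, hj⟩ := mem_iUnion.1 h4
        exact ⟨j, hj.2⟩
    obtain ⟨j, hj⟩ := hplate z0 hz0m
    -- all of the small disc is in the same plate
    set S : Set ℝ := (fun z => f z i2) '' ball z0 ρ0 with hS
    have hfc : ContinuousOn (fun z => f z i2) (ball z0 ρ0) := by
      intro z hz
      have h4 : ContinuousAt f z := (hf.harmonic z (hsub1 hz)).1.continuousAt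
      have h5 : ContinuousAt (fun z => f z i2) z :=
        (EuclideanSpace.proj i2 : EuclideanSpace ℝ (Fin n) →L[ℝ] ℝ).continuous.continuousAt.comp h4
      exact h5.continuousWithinAt
    have hSp : IsPreconnected S := ((convex_ball _ _).isPreconnected).image _ hfc
    have hdisj : ∀ {a b : ℕ} {t : ℝ}, a < b → |t - yy a| < ε a → |t - yy b| < ε b → False := by
      intro a b t hab h4 h5
      rw [abs_lt] at h4 h5
      have h6 := yy_half hab
      have h7 := hε8 a
      have h8 := hε8 b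
      have h9 := yy_pos a
      linarith [h4.1, h5.2]
    have hSj : S ⊆ ball (yy j) (ε j) := by
      apply IsPreconnected.subset_left_of_subset_union (u := ball (yy j) (ε j))
        (v := ⋃ k ∈ {k | k ≠ j}, ball (yy k) (ε k)) isOpen_ball
        (isOpen_biUnion fun k _ => isOpen_ball)
      · rw [Set.disjoint_left]
        intro t ht ht2
        obtain ⟨k, hk, ht3⟩ := mem_iUnion₂.1 ht2
        rw [mem_ball, Real.dist_eq] at ht ht3
        rcases lt_or_gt_of_ne (show k ≠ j from hk) with h | h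
        · exact hdisj h ht3 ht
        · exact hdisj h ht ht3
      · rintro _ ⟨z, hz, rfl⟩
        obtain ⟨k, hk⟩ := hplate z hz
        by_cases hkj : k = j
        · left; subst hkj; rw [mem_ball, Real.dist_eq]; exact hk
        · right
          apply mem_iUnion₂.2
          exact ⟨k, hkj, by rw [mem_ball, Real.dist_eq]; exact hk⟩
      · exact ⟨f z0 i2, ⟨z0, hz0m, rfl⟩, by rw [mem_ball, Real.dist_eq]; exact hj⟩
      · exact hSp
    apply hprop j (F i2) (hFd i2) (fun z hz => by rw [hFr i2 z hz]; exact hb1 z hz) z0 hz0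
    · intro z hz
      rw [hFr i2 z (hsub1 hz)]
      have h4 : f z i2 ∈ ball (yy j) (ε j) := hSj ⟨z, hz, rfl⟩
      rw [mem_ball, Real.dist_eq] at h4
      exact h4.le
    · rw [hFr i2 0 m0, hf0]
      simp
  -- conclusion
  have hsub3 : ball (0 : ℂ) (1 / 3) ⊆ ball 0 1 := ball_subset_ball (by norm_num)
  have h4 := grad_bound (F := F i0) (a := 0) (M := 2) (by norm_num : (0 : ℝ) < 1 / 3)
    (by norm_num) ((hFd i0).mono hsub3) (fun z hz => by
      rw [hFr i0 z (hsub3 hz)]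
      rw [mem_ball_zero_iff] at hz
      exact (abs_coord_le _ _).trans (hclaim z hz.le).le)
  have h5 : (11 * 2 / (1 / 3) : ℝ) = 66 := by norm_num
  rw [h5] at h4
  have hFda : DifferentiableAt ℂ (F i0) 0 := (hFd i0).differentiableAt (isOpen_ball.mem_nhds m0)
  have h6 : HasFDerivAt (fun z => (F i0 z).re)
      (Complex.reCLM.comp ((fderiv ℂ (F i0) 0).restrictScalars ℝ)) 0 :=
    Complex.reCLM.hasFDerivAt.comp 0 (hFda.hasFDerivAt.restrictScalars ℝ)
  have h7 : HasFDerivAt (fun z => f z i0)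
      ((EuclideanSpace.proj i0 : EuclideanSpace ℝ (Fin n) →L[ℝ] ℝ).comp (fderiv ℝ f 0)) 0 :=
    (EuclideanSpace.proj i0 : EuclideanSpace ℝ (Fin n) →L[ℝ] ℝ).hasFDerivAt.comp 0
      ((hf.harmonic 0 m0).1.differentiableAt (by norm_num)).hasFDerivAt
  have h8 : (fun z => (F i0 z).re) =ᶠ[𝓝 0] fun z => f z i0 := by
    filter_upwards [isOpen_ball.mem_nhds m0] with z hz using hFr i0 z hz
  have h9 := (h7.congr_of_eventuallyEq h8).unique h6
  have h10 := congrArg (fun T : ℂ →L[ℝ] ℝ => T 1) h9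
  simp only [ContinuousLinearMap.comp_apply, ContinuousLinearMap.coe_restrictScalars',
    Complex.reCLM_apply] at h10
  rw [hfx] at h10
  have h11 : (fderiv ℂ (F i0) 0) 1 = deriv (F i0) 0 := rfl
  rw [h11] at h10
  have h12 : (EuclideanSpace.proj i0 : EuclideanSpace ℝ (Fin n) →L[ℝ] ℝ)
      (r • (EuclideanSpace.single i0 1)) = r := by simp
  rw [h12] at h10
  have h13 := Complex.abs_re_le_norm (deriv (F i0) 0)
  rw [← h10, abs_of_pos hr] at h13
  linarith

/-- a small flat disc through the origin; the set of competitors is not empty -/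
lemma exists_disc (h3 : 3 ≤ n) (ε : ℕ → ℝ) :
    ∃ f : ℂ → EuclideanSpace ℝ (Fin n), IsCH (Dom (⟨2, by omega⟩ : Fin n) ε) f ∧ f 0 = 0 ∧
      fderiv ℝ f 0 1 = (1 : ℝ) • (EuclideanSpace.single ⟨0, by omega⟩ 1) := by
  set i0 : Fin n := ⟨0, by omega⟩ with hi0
  set i1 : Fin n := ⟨1, by omega⟩ with hi1
  have h01 : i0 ≠ i1 := by simp [hi0, hi1]
  set e0 : EuclideanSpace ℝ (Fin n) := EuclideanSpace.single i0 1 with he0
  set e1 : EuclideanSpace ℝ (Fin n) := EuclideanSpace.single i1 1 with he1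
  set L : ℂ →L[ℝ] EuclideanSpace ℝ (Fin n) :=
    (Complex.reCLM.smulRight e0 + Complex.imCLM.smulRight e1) with hL
  have hLv : ∀ z : ℂ, L z = (z.re • e0 + z.im • e1) := fun z => rfl
  have hfd : ∀ z, HasFDerivAt (fun z => L z) L z := fun z => L.hasFDerivAt
  have ne0 : ‖e0‖ = 1 := by simp [he0]
  have ne1 : ‖e1‖ = 1 := by simp [he1]
  have in01 : inner ℝ e0 e1 = 0 := by
    rw [he0, he1, EuclideanSpace.inner_single_left]
    simp [h01]
  have hLn : ∀ z, ‖L z‖ = ‖z‖ := by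
    intro z
    rw [hLv]
    have h5 : ‖z.re • e0 + z.im • e1‖ ^ 2 = ‖z‖ ^ 2 := by
      rw [norm_add_sq_real, norm_smul, norm_smul, ne0, ne1, inner_smul_left, inner_smul_right,
        in01, Complex.sq_norm, Complex.normSq_apply]
      simp
      ring
    exact (pow_left_inj₀ (norm_nonneg _) (norm_nonneg _) two_ne_zero).1 h5
  refine ⟨fun z => L z, ⟨?_, ?_, ?_⟩, ?_, ?_⟩
  · intro z _
    have h4 : HarmonicAt (fun z : ℂ => z) z := (analyticAt_id (𝕜 := ℂ)).harmonicAt
    exact h4.comp_CLM L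
  · intro z _
    rw [(hfd z).fderiv]
    refine ⟨?_, ?_⟩
    · rw [hLn, hLn]; simp
    · rw [hLv, hLv]
      simp [in01]
  · intro z hz
    left
    rw [mem_ball_zero_iff] at hz ⊢
    rw [hLn]; exact hz
  · simp
  · rw [(hfd 0).fderiv, hLv]
    simp

/-- **MP_29b22c_an, Q1.**  For every `n ≥ 3` there is a bounded domain `Ω ⊆ ℝⁿ` whose minimal
pseudometric is not continuous on `Ω × ℝⁿ`. -/
theorem result (n : ℕ) (h3 : 3 ≤ n) : ∃ Ω : Set (EuclideanSpace ℝ (Fin n)),
    IsOpen Ω ∧ IsConnected Ω ∧ Bornology.IsBounded Ω ∧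
    ¬ ContinuousOn (fun q : EuclideanSpace ℝ (Fin n) × EuclideanSpace ℝ (Fin n) =>
      minMetric Ω q.1 q.2) (Ω ×ˢ univ) := by
  have hn : (3 : ℝ) ≤ n := by exact_mod_cast h3
  have hρs : (1 / (10000 * n) : ℝ) < 1 / 2 := by
    apply one_div_lt_one_div_of_lt (by norm_num)
    linarith
  choose δ hδ hδp using fun j => propagation (c := yy j) (yy_pos j).ne'
    (show (0 : ℝ) < 1 / (10000 * n) by positivity) hρs
  set ε : ℕ → ℝ := fun j => min (δ j) (yy j / 8) with hε
  have hεpos : ∀ j, 0 < ε j := fun j => lt_min (hδ j) (by have := yy_pos j; positivity)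
  have hε8 : ∀ j, ε j ≤ yy j / 8 := fun j => min_le_right _ _
  have hprop : ∀ j, ∀ F : ℂ → ℂ, DifferentiableOn ℂ F (ball 0 1) →
      (∀ z ∈ ball (0 : ℂ) 1, |(F z).re| ≤ 1) → ∀ z0 : ℂ, ‖z0‖ ≤ 1 / 3 →
      (∀ z ∈ ball z0 (1 / (10000 * n)), |(F z).re - yy j| ≤ ε j) → (F 0).re ≠ 0 :=
    fun j F hF hb z0 hz0 hs => hδp j F hF hb z0 hz0 fun z hz => (hs z hz).trans (min_le_left _ _)
  set i2 : Fin n := ⟨2, by omega⟩ with hi2
  refine ⟨Dom i2 ε, isOpen_Dom i2 ε, isConnected_Dom i2 ε hεpos,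
    isBounded_ball.subset (Dom_subset i2 ε), ?_⟩
  intro hcont
  set e0 : EuclideanSpace ℝ (Fin n) := EuclideanSpace.single ⟨0, by omega⟩ 1 with he0
  have hne : e0 ≠ 0 := by
    intro h
    have := congrArg norm h
    simp [he0] at this
  have h0m : ((0 : EuclideanSpace ℝ (Fin n)), e0) ∈ Dom i2 ε ×ˢ (univ : Set _) :=
    ⟨Or.inl (mem_ball_self one_pos), mem_univ _⟩
  have hc := hcont _ h0m
  have hseq : Tendsto (fun j => ((EuclideanSpace.single i2 (yy j) : EuclideanSpace ℝ (Fin n)), e0))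
      atTop (𝓝[Dom i2 ε ×ˢ univ] ((0 : EuclideanSpace ℝ (Fin n)), e0)) := by
    rw [tendsto_nhdsWithin_iff]
    refine ⟨?_, ?_⟩
    · apply Tendsto.prodMk_nhds _ tendsto_const_nhds
      rw [tendsto_zero_iff_norm_tendsto_zero]
      have : (fun j => ‖(EuclideanSpace.single i2 (yy j) : EuclideanSpace ℝ (Fin n))‖) = yy := by
        funext j
        rw [PiLp.norm_single, Real.norm_eq_abs, abs_of_pos (yy_pos j)]
      rw [this]
      exact yy_tendsto
    · filter_upwards with j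
      refine ⟨Or.inr (mem_iUnion.2 ⟨j, pj_mem i2 ε hεpos j⟩), mem_univ _⟩
  have hlim := hc.tendsto.comp hseq
  have hle : minMetric (Dom i2 ε) 0 e0 ≤ 1 / 99 :=
    le_of_tendsto hlim (Eventually.of_forall fun j => upper h3 ε hεpos j)
  have hge : 1 / 66 ≤ minMetric (Dom i2 ε) 0 e0 := by
    unfold minMetric
    rw [if_neg hne]
    apply le_csInf
    · obtain ⟨f, hf1, hf2, hf3⟩ := exists_disc h3 ε
      exact ⟨1 / 1, 1, one_pos, rfl, f, hf1, hf2, hf3⟩
    · rintro s ⟨r, hr, rfl, f, hf1, hf2, hf3⟩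
      apply one_div_le_one_div_of_le hr
      exact lower h3 ε hε8 hprop hr hf1 hf2 hf3
  norm_num at hle hge
  linarith

end Pool.Agent.Results.MP_29b22c_an.DiscontinuousMinimalMetric
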